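import Pool.Agent.Run7.h473.MD.Iface
import Pool.Agent.Y180.GL.Gam

/-!
Project MD, piece GAM: the factor of the functional equation is holomorphic in the strip and
polynomially bounded.  The lower bound for the Gamma function is `gam_all` of `Y180/GL/Gam`; the
lemmas `sin_low` and `up` are taken from `N846/DT/Gam` (helper614).
-/

set_option autoImplicit false

namespace Pool.Agent.Run7.h473.MD

open Complex Filter Topology MeasureTheory Set
open Pool.Agent.Y180.GL (cG cG_pos gam_all)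

namespace GAMp

lemma sin_low (x t : ℝ) : Real.sinh (Real.pi * t) ≤ ‖Complex.sin (Real.pi * ((x : ℂ) + t * I))‖ := by
  have h : Complex.sin (Real.pi * ((x : ℂ) + t * I)) =
      ⟨Real.sin (Real.pi * x) * Real.cosh (Real.pi * t),
        Real.cos (Real.pi * x) * Real.sinh (Real.pi * t)⟩ := by
    rw [show (Real.pi : ℂ) * ((x : ℂ) + t * I) =
      ((Real.pi * x : ℝ) : ℂ) + ((Real.pi * t : ℝ) : ℂ) * I by push_cast; ring,
      Complex.sin_add_mul_I]
    rw [← ofReal_cos, ← ofReal_cosh, ← ofReal_sin, ← ofReal_sinh]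
    have hx : ∀ a b c d : ℝ, ((a : ℂ) * (b : ℂ) + (c : ℂ) * (d : ℂ) * I) = ⟨a * b, c * d⟩ := by
      intro a b c d
      apply Complex.ext <;> simp
    exact hx _ _ _ _
  rw [h]
  refine le_trans (le_abs_self _) ?_
  rw [← Real.sqrt_sq_eq_abs]
  rw [Complex.norm_def]
  apply Real.sqrt_le_sqrt
  rw [Complex.normSq_mk]
  have h1 := Real.sin_sq_add_cos_sq (Real.pi * x)
  have h2 := Real.cosh_sq (Real.pi * t)
  nlinarith [sq_nonneg (Real.sin (Real.pi * x)), sq_nonneg (Real.cos (Real.pi * x))]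

/-- upper bound -/
lemma up : ∃ C : ℝ, 0 < C ∧ ∀ x t : ℝ, x < 1 → 1 ≤ t →
    ‖Gamma ((x : ℂ) + t * I)‖ ≤ C * t ^ (x - 1 / 2) * Real.exp (-(Real.pi / 2 * t)) := by
  have hcG := cG_pos
  have hπ := Real.pi_gt_three
  refine ⟨4 * Real.pi / cG, by positivity, ?_⟩
  intro x t hx ht
  have ht0 : 0 < t := by linarith
  have hx1 : 0 < 1 - x := by linarith
  have h1 := gam_all hx1 ht
  have h2 := Complex.Gamma_mul_Gamma_one_sub ((x : ℂ) + t * I)
  have h3 : ‖Gamma (1 - ((x : ℂ) + t * I))‖ = ‖Gamma (((1 - x : ℝ) : ℂ) + t * I)‖ := by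
    have : (1 - ((x : ℂ) + t * I)) = (starRingEnd ℂ) (((1 - x : ℝ) : ℂ) + t * I) := by
      apply Complex.ext <;> simp
    rw [this, Complex.Gamma_conj, RCLike.norm_conj]
  have h4 := congrArg norm h2
  rw [norm_mul, norm_div, h3, Complex.norm_real, Real.norm_of_nonneg Real.pi_pos.le] at h4
  have hs := sin_low x t
  have hsh : Real.exp (Real.pi * t) / 4 ≤ Real.sinh (Real.pi * t) := by
    rw [Real.sinh_eq]
    have e1 : (1 : ℝ) ≤ Real.pi * t := by nlinarith
    have e2 := Real.add_one_le_exp (Real.pi * t)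
    have e3 : Real.exp (-(Real.pi * t)) ≤ 1 := Real.exp_le_one_iff.2 (by linarith)
    linarith
  have hsp : 0 < ‖Complex.sin (Real.pi * ((x : ℂ) + t * I))‖ := by
    have := Real.exp_pos (Real.pi * t)
    linarith
  -- G * G' * sin = π
  have h5 : ‖Gamma ((x : ℂ) + t * I)‖ * (cG * t ^ (1 - x - 1 / 2) *
      Real.exp (-(Real.pi / 2 * t))) * (Real.exp (Real.pi * t) / 4) ≤ Real.pi := by
    calc _ ≤ ‖Gamma ((x : ℂ) + t * I)‖ * ‖Gamma (((1 - x : ℝ) : ℂ) + t * I)‖ *
          ‖Complex.sin (Real.pi * ((x : ℂ) + t * I))‖ := by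
          gcongr
          exact hsh.trans hs
      _ = Real.pi := by
          rw [h4]
          field_simp
  have h6 : t ^ (1 - x - 1 / 2) * t ^ (x - 1 / 2) = 1 := by
    rw [← Real.rpow_add ht0, show 1 - x - 1 / 2 + (x - 1 / 2) = 0 by ring, Real.rpow_zero]
  have h7 : Real.exp (-(Real.pi / 2 * t)) * Real.exp (Real.pi * t) *
      Real.exp (-(Real.pi / 2 * t)) = 1 := by
    rw [← Real.exp_add, ← Real.exp_add]
    have : -(Real.pi / 2 * t) + Real.pi * t + -(Real.pi / 2 * t) = 0 := by ring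
    rw [this, Real.exp_zero]
  have h8 : ‖Gamma ((x : ℂ) + t * I)‖ = (‖Gamma ((x : ℂ) + t * I)‖ * (cG * t ^ (1 - x - 1 / 2) *
      Real.exp (-(Real.pi / 2 * t))) * (Real.exp (Real.pi * t) / 4)) * (4 / cG) *
      (t ^ (x - 1 / 2) * Real.exp (-(Real.pi / 2 * t))) := by
    have e1 : (‖Gamma ((x : ℂ) + t * I)‖ * (cG * t ^ (1 - x - 1 / 2) *
      Real.exp (-(Real.pi / 2 * t))) * (Real.exp (Real.pi * t) / 4)) * (4 / cG) *
      (t ^ (x - 1 / 2) * Real.exp (-(Real.pi / 2 * t))) = ‖Gamma ((x : ℂ) + t * I)‖ *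
      (t ^ (1 - x - 1 / 2) * t ^ (x - 1 / 2)) * (Real.exp (-(Real.pi / 2 * t)) *
      Real.exp (Real.pi * t) * Real.exp (-(Real.pi / 2 * t))) := by
      field_simp
    rw [e1, h6, h7, mul_one, mul_one]
  rw [h8]
  calc _ ≤ Real.pi * (4 / cG) * (t ^ (x - 1 / 2) * Real.exp (-(Real.pi / 2 * t))) := by
        gcongr
    _ = _ := by ring
lemma nrmG (z : ℂ) : ‖Gamma z‖ = ‖Gamma ((z.re : ℂ) + (|z.im| : ℝ) * I)‖ := by
  rcases le_total 0 z.im with h | h
  · rw [abs_of_nonneg h, Complex.re_add_im]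
  · rw [abs_of_nonpos h]
    have e : ((z.re : ℂ) + ((-z.im : ℝ) : ℂ) * I) = (starRingEnd ℂ) z := by
      apply Complex.ext <;> simp
    rw [e, Complex.Gamma_conj, RCLike.norm_conj]

lemma gam_diffAt (s : ℂ) (h0 : 0 < s.re) (h1 : s.re < 1) : DifferentiableAt ℂ gam s := by
  have e1 : DifferentiableAt ℂ (fun s : ℂ => (Real.pi : ℂ) ^ (s - 1 / 2)) s := by
    refine DifferentiableAt.const_cpow (by fun_prop) (Or.inl ?_)
    exact_mod_cast Real.pi_pos.ne'
  have e2 : DifferentiableAt ℂ (fun s : ℂ => Complex.Gamma ((1 - s) / 2)) s := by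
    refine (Complex.differentiableAt_Gamma _ ?_).comp s (by fun_prop)
    intro m hm
    have h2 := congrArg Complex.re hm
    have h3 : ((1 - s) / 2).re = (1 - s.re) / 2 := by simp
    rw [h3] at h2
    simp only [neg_re, natCast_re] at h2
    have h5 : (0 : ℝ) ≤ m := Nat.cast_nonneg m
    linarith
  have e3 : DifferentiableAt ℂ (fun s : ℂ => Complex.Gamma (s / 2)) s := by
    refine (Complex.differentiableAt_Gamma _ ?_).comp s (by fun_prop)
    intro m hm
    have h2 := congrArg Complex.re hm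
    have h3 : (s / 2).re = s.re / 2 := by simp
    rw [h3] at h2
    simp only [neg_re, natCast_re] at h2
    have h5 : (0 : ℝ) ≤ m := Nat.cast_nonneg m
    linarith
  have hne : Complex.Gamma (s / 2) ≠ 0 := by
    apply Complex.Gamma_ne_zero_of_re_pos
    have h3 : (s / 2).re = s.re / 2 := by simp
    rw [h3]; linarith
  exact (e1.mul e2).div e3 hne

/-- the quotient for large imaginary part -/
lemma quo : ∃ C : ℝ, 0 < C ∧ ∀ x t : ℝ, 0 < x → x < 1 → 1 ≤ t →
    ‖Gamma ((((1 - x) / 2 : ℝ) : ℂ) + t * I)‖ ≤ C * t * ‖Gamma (((x / 2 : ℝ) : ℂ) + t * I)‖ := by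
  obtain ⟨C, hC, hup⟩ := up
  have hcG := cG_pos
  refine ⟨C / cG, by positivity, ?_⟩
  intro x t hx0 hx1 ht
  have ht0 : 0 < t := by linarith
  have g1 := gam_all (show 0 < x / 2 by linarith) ht
  have g2 := hup ((1 - x) / 2) t (by linarith) ht
  refine g2.trans ?_
  have h1 : t ^ ((1 - x) / 2 - 1 / 2) ≤ t * t ^ (x / 2 - 1 / 2) := by
    have e1 : t * t ^ (x / 2 - 1 / 2) = t ^ (1 + (x / 2 - 1 / 2)) := by
      rw [Real.rpow_add ht0, Real.rpow_one]
    rw [e1]
    exact Real.rpow_le_rpow_of_exponent_le ht (by linarith)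
  calc C * t ^ ((1 - x) / 2 - 1 / 2) * Real.exp (-(Real.pi / 2 * t))
      ≤ C * (t * t ^ (x / 2 - 1 / 2)) * Real.exp (-(Real.pi / 2 * t)) := by gcongr
    _ = C / cG * t * (cG * t ^ (x / 2 - 1 / 2) * Real.exp (-(Real.pi / 2 * t))) := by
        field_simp
    _ ≤ _ := by gcongr

end GAMp

open GAMp in
theorem t_GAM : S_GAM := by
  refine ⟨fun s hs => (gam_diffAt s hs.1 hs.2).differentiableWithinAt, ?_⟩
  intro a b ha hb
  have hπ := Real.pi_gt_three
  obtain ⟨C, hC, hq⟩ := quo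
  have hK : IsCompact (Set.Icc a b ×ℂ Set.Icc (-2 : ℝ) 2) :=
    isCompact_Icc.reProdIm isCompact_Icc
  have hcont : ContinuousOn gam (Set.Icc a b ×ℂ Set.Icc (-2 : ℝ) 2) := by
    intro z hz
    have hz' := Complex.mem_reProdIm.1 hz
    exact (gam_diffAt z (by linarith [hz'.1.1]) (by linarith [hz'.1.2])).continuousAt.continuousWithinAt
  obtain ⟨M, hM⟩ := hK.exists_bound_of_continuousOn hcont
  refine ⟨|M| + Real.pi * C, 1, ?_⟩
  intro s hs1 hs2
  rw [pow_one]
  rcases le_total |s.im| 2 with h | h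
  · have h1 := hM s (Complex.mem_reProdIm.2 ⟨⟨hs1, hs2⟩, (abs_le.1 h).1, (abs_le.1 h).2⟩)
    have h2 : (0 : ℝ) ≤ |s.im| := abs_nonneg _
    have h3 := le_abs_self M
    have h4 : 0 ≤ Real.pi * C := by positivity
    nlinarith [abs_nonneg M, mul_nonneg (add_nonneg (abs_nonneg M) h4) h2]
  · have hx0 : 0 < s.re := by linarith
    have hx1 : s.re < 1 := by linarith
    have h1 := hq s.re (|s.im| / 2) hx0 hx1 (by linarith)
    have e1 : ‖Gamma ((1 - s) / 2)‖ =
        ‖Gamma ((((1 - s.re) / 2 : ℝ) : ℂ) + ((|s.im| / 2 : ℝ) : ℂ) * I)‖ := by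
      rw [nrmG]
      have h3 : ((1 - s) / 2).re = (1 - s.re) / 2 := by simp
      have h4 : |((1 - s) / 2).im| = |s.im| / 2 := by
        have : ((1 - s) / 2).im = -(s.im) / 2 := by simp
        rw [this, abs_div, abs_neg, abs_two]
      rw [h3, h4]
    have e2 : ‖Gamma (s / 2)‖ =
        ‖Gamma (((s.re / 2 : ℝ) : ℂ) + ((|s.im| / 2 : ℝ) : ℂ) * I)‖ := by
      rw [nrmG]
      have h3 : (s / 2).re = s.re / 2 := by simp
      have h4 : |(s / 2).im| = |s.im| / 2 := by
        have : (s / 2).im = s.im / 2 := by simp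
        rw [this, abs_div, abs_two]
      rw [h3, h4]
    rw [← e1, ← e2] at h1
    have hne : Complex.Gamma (s / 2) ≠ 0 := by
      apply Complex.Gamma_ne_zero_of_re_pos
      have h3 : (s / 2).re = s.re / 2 := by simp
      rw [h3]; linarith
    have hpos : 0 < ‖Complex.Gamma (s / 2)‖ := norm_pos_iff.2 hne
    have e3 : ‖(Real.pi : ℂ) ^ (s - 1 / 2)‖ ≤ Real.pi := by
      rw [Complex.norm_cpow_eq_rpow_re_of_pos Real.pi_pos]
      have h5 : (s - 1 / 2).re = s.re - 1 / 2 := by simp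
      rw [h5]
      calc Real.pi ^ (s.re - 1 / 2) ≤ Real.pi ^ (1 : ℝ) :=
            Real.rpow_le_rpow_of_exponent_le (by linarith) (by linarith)
        _ = Real.pi := Real.rpow_one _
    have e4 : ‖gam s‖ = ‖(Real.pi : ℂ) ^ (s - 1 / 2)‖ * ‖Gamma ((1 - s) / 2)‖ / ‖Gamma (s / 2)‖ := by
      unfold gam
      rw [norm_div, norm_mul]
    rw [e4, div_le_iff₀ hpos]
    calc ‖(Real.pi : ℂ) ^ (s - 1 / 2)‖ * ‖Gamma ((1 - s) / 2)‖
        ≤ Real.pi * (C * (|s.im| / 2) * ‖Gamma (s / 2)‖) := by gcongr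
      _ = (Real.pi * C * (|s.im| / 2)) * ‖Gamma (s / 2)‖ := by ring
      _ ≤ ((|M| + Real.pi * C) * (1 + |s.im|)) * ‖Gamma (s / 2)‖ := by
          refine mul_le_mul_of_nonneg_right ?_ hpos.le
          have h6 : 0 ≤ Real.pi * C := by positivity
          have h7 := abs_nonneg M
          have h8 := abs_nonneg s.im
          nlinarith [mul_nonneg h7 h8, mul_nonneg h6 h8]

end Pool.Agent.Run7.h473.MD
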