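import Pool.Agent.Run7.h473.MD.Iface

/-!
Project MD, piece HYP: points of the cube with coordinate sum at most `r` are convex combinations
of `0/1`-vectors with at most `r` ones.
-/

set_option autoImplicit false

namespace Pool.Agent.Run7.h473.MD

open Set

namespace HYPp

/-- the vertices -/
def V (r k : ℕ) : Set (Fin k → ℝ) :=
  {v : Fin k → ℝ | ∃ I : Finset (Fin k), I.card ≤ r ∧ v = fun j => if j ∈ I then 1 else 0}

/-- at most one fractional coordinate -/
lemma one (r k : ℕ) (u : Fin k → ℝ) (hu : ∀ j, 0 ≤ u j ∧ u j ≤ 1) (hs : ∑ j, u j ≤ r)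
    (hne : ∀ i j, i ≠ j → (0 < u i ∧ u i < 1) → ¬ (0 < u j ∧ u j < 1)) :
    u ∈ convexHull ℝ (V r k) := by
  classical
  have h01 : ∀ j, ¬ (0 < u j ∧ u j < 1) → u j = 0 ∨ u j = 1 := by
    intro j hj
    rcases (hu j).1.lt_or_eq with h | h
    · rcases (hu j).2.lt_or_eq with h' | h'
      · exact absurd ⟨h, h'⟩ hj
      · exact Or.inr h'
    · exact Or.inl h.symm
  set I : Finset (Fin k) := Finset.univ.filter (fun j => u j = 1) with hI
  have hmem : ∀ j, j ∈ I ↔ u j = 1 := fun j => by simp [hI]
  by_cases h1 : ∃ i, 0 < u i ∧ u i < 1
  · obtain ⟨i, hi⟩ := h1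
    have hiI : i ∉ I := by rw [hmem]; exact hi.2.ne
    have hother : ∀ j, j ≠ i → u j = 0 ∨ u j = 1 := fun j hj => h01 j (hne i j hj.symm hi)
    have hsum : ∑ j, u j = (I.card : ℝ) + u i := by
      have e1 : ∀ j, u j = (if j ∈ I then (1 : ℝ) else 0) + (if j = i then u i else 0) := by
        intro j
        by_cases hj : j = i
        · subst hj; simp [hiI]
        · rcases hother j hj with h | h
          · have : j ∉ I := by rw [hmem, h]; norm_num
            simp [this, hj, h]
          · have : j ∈ I := by rw [hmem, h]
            simp [this, hj, h]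
      rw [Finset.sum_congr rfl (fun j _ => e1 j), Finset.sum_add_distrib]
      simp
    have hcard : I.card + 1 ≤ r := by
      have h2 : (I.card : ℝ) < r := by linarith [hi.1]
      exact_mod_cast h2
    have hA : (fun j => if j ∈ I then (1 : ℝ) else 0) ∈ convexHull ℝ (V r k) :=
      subset_convexHull ℝ _ ⟨I, by omega, rfl⟩
    have hB : (fun j => if j ∈ insert i I then (1 : ℝ) else 0) ∈ convexHull ℝ (V r k) := by
      refine subset_convexHull ℝ _ ⟨insert i I, ?_, rfl⟩
      exact (Finset.card_insert_le i I).trans hcard
    have hcomb := (convex_convexHull ℝ (V r k)) hA hB (show 0 ≤ 1 - u i by linarith [hi.2])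
      hi.1.le (by ring)
    have e : u = (1 - u i) • (fun j => if j ∈ I then (1 : ℝ) else 0) +
        u i • (fun j => if j ∈ insert i I then (1 : ℝ) else 0) := by
      funext j
      simp only [Pi.add_apply, Pi.smul_apply, smul_eq_mul, Finset.mem_insert]
      by_cases hj : j = i
      · subst hj; simp [hiI]
      · rcases hother j hj with h | h
        · have : j ∉ I := by rw [hmem, h]; norm_num
          simp [this, hj, h]
        · have : j ∈ I := by rw [hmem, h]
          simp [this, hj, h]
    rw [e]; exact hcomb
  · have hall : ∀ j, u j = 0 ∨ u j = 1 := fun j => h01 j (fun h => h1 ⟨j, h⟩)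
    have e : u = fun j => if j ∈ I then (1 : ℝ) else 0 := by
      funext j
      rcases hall j with h | h
      · have : j ∉ I := by rw [hmem, h]; norm_num
        simp [this, h]
      · have : j ∈ I := by rw [hmem, h]
        simp [this, h]
    have hsum : ∑ j, u j = (I.card : ℝ) := by
      rw [e]; simp
    refine subset_convexHull ℝ _ ⟨I, ?_, e⟩
    rw [hsum] at hs
    exact_mod_cast hs

lemma main (r k : ℕ) : ∀ (n : ℕ) (u : Fin k → ℝ), (∀ j, 0 ≤ u j ∧ u j ≤ 1) → ∑ j, u j ≤ r →
    (Finset.univ.filter (fun j => 0 < u j ∧ u j < 1)).card ≤ n → u ∈ convexHull ℝ (V r k) := by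
  classical
  intro n
  induction n with
  | zero =>
    intro u hu hs hc
    refine one r k u hu hs ?_
    intro i j _ hi _
    have : i ∈ Finset.univ.filter (fun j => 0 < u j ∧ u j < 1) := by simp [hi.1, hi.2]
    have h0 := Finset.card_pos.2 ⟨i, this⟩
    omega
  | succ n ih =>
    intro u hu hs hc
    by_cases h2 : ∃ i j, i ≠ j ∧ (0 < u i ∧ u i < 1) ∧ (0 < u j ∧ u j < 1)
    · obtain ⟨i, j, hij, hi, hj⟩ := h2
      have step : ∀ t : ℝ, 0 ≤ u i + t → u i + t ≤ 1 → 0 ≤ u j - t → u j - t ≤ 1 →
          (u i + t = 1 ∨ u i + t = 0 ∨ u j - t = 0 ∨ u j - t = 1) →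
          (fun x => u x + t * ((if x = i then (1 : ℝ) else 0) - (if x = j then 1 else 0))) ∈
            convexHull ℝ (V r k) := by
        intro t a1 a2 b1 b2 hint
        set w : Fin k → ℝ :=
          fun x => u x + t * ((if x = i then (1 : ℝ) else 0) - (if x = j then 1 else 0)) with hw
        have wi : w i = u i + t := by simp [hw, hij]
        have wj : w j = u j - t := by simp [hw, hij.symm]; ring
        have wx : ∀ x, x ≠ i → x ≠ j → w x = u x := by
          intro x hxi hxj
          simp [hw, hxi, hxj]
        apply ih w
        · intro x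
          by_cases hxi : x = i
          · rw [hxi, wi]; exact ⟨a1, a2⟩
          · by_cases hxj : x = j
            · rw [hxj, wj]; exact ⟨b1, b2⟩
            · rw [wx x hxi hxj]; exact hu x
        · have : ∑ x, w x = ∑ x, u x := by
            simp only [hw, Finset.sum_add_distrib, ← Finset.mul_sum, Finset.sum_sub_distrib,
              Finset.sum_ite_eq', Finset.mem_univ, if_true, sub_self, mul_zero, add_zero]
          rw [this]; exact hs
        · have hss : Finset.univ.filter (fun x => 0 < w x ∧ w x < 1) ⊂
              Finset.univ.filter (fun x => 0 < u x ∧ u x < 1) := by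
            rw [Finset.ssubset_iff_of_subset]
            · rcases hint with h | h | h | h
              · refine ⟨i, by simp [hi.1, hi.2], ?_⟩
                simp only [Finset.mem_filter, Finset.mem_univ, true_and, wi, h]; norm_num
              · refine ⟨i, by simp [hi.1, hi.2], ?_⟩
                simp only [Finset.mem_filter, Finset.mem_univ, true_and, wi, h]; norm_num
              · refine ⟨j, by simp [hj.1, hj.2], ?_⟩
                simp only [Finset.mem_filter, Finset.mem_univ, true_and, wj, h]; norm_num
              · refine ⟨j, by simp [hj.1, hj.2], ?_⟩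
                simp only [Finset.mem_filter, Finset.mem_univ, true_and, wj, h]; norm_num
            · intro x hx
              simp only [Finset.mem_filter, Finset.mem_univ, true_and] at hx ⊢
              by_cases hxi : x = i
              · rw [hxi]; exact hi
              · by_cases hxj : x = j
                · rw [hxj]; exact hj
                · rwa [wx x hxi hxj] at hx
          have := Finset.card_lt_card hss
          omega
      set t1 : ℝ := min (1 - u i) (u j) with ht1
      set t2 : ℝ := min (u i) (1 - u j) with ht2
      have p1 : 0 < t1 := lt_min (by linarith [hi.2]) hj.1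
      have p2 : 0 < t2 := lt_min hi.1 (by linarith [hj.2])
      have q1 : t1 ≤ 1 - u i := min_le_left _ _
      have q2 : t1 ≤ u j := min_le_right _ _
      have q3 : t2 ≤ u i := min_le_left _ _
      have q4 : t2 ≤ 1 - u j := min_le_right _ _
      have m1 := step t1 (by linarith [hi.1]) (by linarith) (by linarith) (by linarith [hj.2]) (by
        rcases min_choice (1 - u i) (u j) with h | h
        · left; rw [ht1, h]; ring
        · right; right; left; rw [ht1, h]; ring)
      have m2 := step (-t2) (by linarith) (by linarith [hi.2]) (by linarith [hj.1]) (by linarith) (by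
        rcases min_choice (u i) (1 - u j) with h | h
        · right; left; rw [ht2, h]; ring
        · right; right; right; rw [ht2, h]; ring)
      have hpos : 0 < t1 + t2 := by linarith
      have hcomb := (convex_convexHull ℝ (V r k)) m1 m2
        (show 0 ≤ t2 / (t1 + t2) by positivity) (show 0 ≤ t1 / (t1 + t2) by positivity)
        (by field_simp; ring)
      have e : u = (t2 / (t1 + t2)) •
          (fun x => u x + t1 * ((if x = i then (1 : ℝ) else 0) - (if x = j then 1 else 0))) +
          (t1 / (t1 + t2)) •
          (fun x => u x + (-t2) * ((if x = i then (1 : ℝ) else 0) - (if x = j then 1 else 0))) := by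
        funext x
        simp only [Pi.add_apply, Pi.smul_apply, smul_eq_mul]
        generalize ((if x = i then (1 : ℝ) else 0) - (if x = j then 1 else 0)) = d
        field_simp
        ring
      rw [e]; exact hcomb
    · refine one r k u hu hs ?_
      intro i j hij hi hj
      exact h2 ⟨i, j, hij, hi, hj⟩

end HYPp

theorem t_HYP : S_HYP := by
  intro r k u hu hs
  exact HYPp.main r k _ u hu hs le_rfl

end Pool.Agent.Run7.h473.MD
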